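import Mathlib
import Pool.Agent.N970.PC.Cnt
import Pool.Agent.N970.PC.XCc
import Pool.Agent.N972.PC15.XC

/-!
# The number of parameters (generic form of `N972/PC15/XC`)
-/

set_option autoImplicit false

namespace Pool.Agent.N970.PC

open Finset
open Pool.Agent.Z700 (hh fac)
open Pool.Agent.Y155.Z7 (C C_eq C_prod S S_unram S_ram)
open Pool.Agent.N969.P15 (tw)
open Pool.Agent.N972.PC15 (TT mem_TT card_TT U U_fac U_prod U_pow U_two P_one sg2)

/-- the fibres -/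
theorem fib (c0 n1 : ℕ) (hn1 : 0 < n1) (b : ℤ) (Q : ℕ) (t : ℕ × ℕ) (ht : t ∈ TT n1 Q) :
    ((XX c0 n1 b Q).filter fun q => (q.1, q.2.2.1) = t).card =
      C t.1 b (4 * c0 * (Q / t.1 ^ 2)) (2 * c0 * t.2)
        (4 * c0 * ((t.2 ^ 2 + n1) / (4 * (Q / t.1 ^ 2)))) n1 := by
  rw [C_eq _ _ _ _ _ _ hn1]
  obtain ⟨h1, h2, h3, h4, h5⟩ := (mem_TT n1 Q t).1 ht
  refine Finset.card_nbij' (fun q => (q.2.1, q.2.2.2)) (fun p => (t.1, p.1, t.2, p.2)) ?_ ?_ ?_ ?_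
  · intro q hq
    have hq := Finset.mem_filter.1 (Finset.mem_coe.1 hq)
    obtain ⟨hq1, hq2⟩ := hq
    unfold XX at hq1
    have hq1 := Finset.mem_filter.1 hq1
    have hq3 := Finset.mem_product.1 hq1.1
    have hq4 := Finset.mem_product.1 hq3.2
    have hq5 := Finset.mem_product.1 hq4.2
    rw [← hq2]
    exact Finset.mem_coe.2 (Finset.mem_filter.2 ⟨Finset.mem_product.2 ⟨hq4.1, hq5.2⟩,
      hq1.2.2.2.2.1, hq1.2.2.2.2.2.1, hq1.2.2.2.2.2.2.2.1, hq1.2.2.2.2.2.2.2.2⟩)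
  · intro p hp
    have hp := Finset.mem_filter.1 (Finset.mem_coe.1 hp)
    have hp1 := Finset.mem_product.1 hp.1
    refine Finset.mem_coe.2 (Finset.mem_filter.2 ⟨?_, rfl⟩)
    unfold XX
    refine Finset.mem_filter.2 ⟨Finset.mem_product.2 ⟨Finset.mem_range.2 h1, Finset.mem_product.2
      ⟨hp1.1, Finset.mem_product.2 ⟨Finset.mem_range.2 (h4.trans_le
        (Nat.mul_le_mul_left 2 (Nat.div_le_self _ _))),
        hp1.2⟩⟩⟩, h2, h3, h4, hp.2.1, hp.2.2.1, h5, hp.2.2.2.1, hp.2.2.2.2⟩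
  · intro q hq
    have hq := Finset.mem_filter.1 (Finset.mem_coe.1 hq)
    obtain ⟨_, hq2⟩ := hq
    rw [← hq2]
  · intro p _
    rfl

/-- XC: the number of parameters -/
theorem t_XC {c0 n1 n2 k Q : ℕ} {b : ℤ} (hc : 0 < c0) (hs : Squarefree n1)
    (h10 : Nat.Coprime n1 (2 * c0))
    (hk : n1 + 1 = 4 * k) (hQ : 0 < Q) (hDD : 4 * c0 * (Q : ℤ) = n1 * n2 - b ^ 2) :
    ((XX c0 n1 b Q).card : ℤ) = (U k Q : ℤ) *
      ∏ l ∈ n1.primeFactors, (if l ∣ 4 * c0 * Q then 1 + hh n1 (4 * c0 * Q) l else 1) := by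
  have hn1 : 0 < n1 := Nat.pos_of_ne_zero hs.ne_zero
  have hdvd : ∀ l, l.Prime → l ∣ n1 → ¬ l ∣ 2 * c0 ∧ ¬ l ^ 2 ∣ n1 := by
    intro l hp hl
    refine ⟨fun h => ?_, ?_⟩
    · have := Nat.dvd_gcd hl h
      rw [h10] at this
      exact hp.one_lt.ne' (Nat.dvd_one.1 this)
    · intro h
      rw [pow_two] at h
      exact hp.one_lt.ne' (Nat.isUnit_iff.1 (hs l h))
  have hD0 : 0 < 4 * c0 * Q := by positivity
  have hDD' : ((4 * c0 * Q : ℕ) : ℤ) = n1 * n2 - b ^ 2 := by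
    push_cast
    exact hDD
  -- the fibres
  have h1 : ∀ t ∈ TT n1 Q, (((XX c0 n1 b Q).filter fun q => (q.1, q.2.2.1) = t).card : ℤ) =
      ∏ l ∈ n1.primeFactors, if l ∣ 4 * c0 * Q then 1 + hh n1 (4 * c0 * Q) l else 1 := by
    intro t ht
    obtain ⟨g1, g2, g3, g4, g5⟩ := (mem_TT n1 Q t).1 ht
    have hφ : 0 < Q / t.1 ^ 2 := Nat.div_pos (Nat.le_of_dvd hQ g3) (pow_pos g2 2)
    rw [fib c0 n1 hn1 b Q t ht, C_prod _ _ _ _ _ (by positivity : 0 < 4 * c0 * (Q / t.1 ^ 2)) hs,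
      Nat.cast_prod]
    refine Finset.prod_congr rfl fun l hl => ?_
    have hl1 := Nat.prime_of_mem_primeFactors hl
    have hl2 := Nat.dvd_of_mem_primeFactors hl
    have hl10 := (hdvd l hl1 hl2).1
    refine C_local (n2 := n2) hl1 ?_ hl10 hl2 (hdvd l hl1 hl2).2 hD0 hDD' ?_ ?_
    · rintro rfl
      exact hl10 (Dvd.intro _ rfl)
    · rw [mul_left_comm, Nat.mul_div_cancel' g3]
    · have e1 := Nat.mul_div_cancel' g5
      generalize (t.2 ^ 2 + n1) / (4 * (Q / t.1 ^ 2)) = g at e1 ⊢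
      have : 4 * c0 * (Q / t.1 ^ 2) * (4 * c0 * g) = (2 * c0) ^ 2 * (4 * (Q / t.1 ^ 2) * g) := by
        ring
      rw [this, e1]
      ring
  rw [Finset.card_eq_sum_card_fiberwise (f := fun q => (q.1, q.2.2.1)) (t := TT n1 Q),
    Nat.cast_sum, Finset.sum_congr rfl h1, Finset.sum_const, nsmul_eq_mul, card_TT hk Q hQ]
  intro q hq
  have hq := Finset.mem_coe.1 hq
  unfold XX at hq
  have hq := Finset.mem_filter.1 hq
  have hq3 := Finset.mem_product.1 hq.1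
  exact Finset.mem_coe.2 ((mem_TT n1 Q _).2 ⟨Finset.mem_range.1 hq3.1, hq.2.1, hq.2.2.1,
    hq.2.2.2.1, hq.2.2.2.2.2.2.1⟩)

/-- the sum over `e` as a product over all primes -/
theorem U_all {c0 n1 k Q : ℕ} (hc : c0.Prime) (hc2 : c0 ≠ 2) (hs : Squarefree n1) (hk : n1 + 1 = 4 * k) (hQ : 0 < Q) :
    (U k Q : ℤ) = (∑ j ∈ range (Q.factorization 2 + 1), sg2 k ^ j) *
      (U k (c0 ^ Q.factorization c0) : ℤ) *
      ∏ l ∈ ((4 * c0 * Q).primeFactors.erase 2).erase c0, (if l ∣ n1 then 1 else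
        ∑ j ∈ range ((4 * c0 * Q).factorization l + 1), (jacobiSym (-(n1 : ℤ)) l) ^ j) := by
  have hk0 : 0 < k := by
    by_contra h
    omega
  have hc0 := hc.pos
  have hQ20 : 4 * c0 * Q ≠ 0 := by positivity
  have hsub : Q.primeFactors ⊆ (4 * c0 * Q).primeFactors :=
    Nat.primeFactors_mono (Dvd.intro_left _ rfl) hQ20
  have h0 : (U k Q : ℤ) = ∏ l ∈ (4 * c0 * Q).primeFactors, (U k (l ^ Q.factorization l) : ℤ) := by
    rw [U_prod k hk0 Q hQ, Nat.cast_prod]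
    refine Finset.prod_subset hsub fun l hl hl' => ?_
    have hp := Nat.prime_of_mem_primeFactors hl
    have : Q.factorization l = 0 := by
      apply Nat.factorization_eq_zero_of_not_dvd
      intro h
      exact hl' (Nat.mem_primeFactors.2 ⟨hp, h, hQ.ne'⟩)
    rw [this, U_pow k hk0 l hp, Finset.sum_range_one]
    simp [P_one]
  have h2 : 2 ∈ (4 * c0 * Q).primeFactors :=
    Nat.mem_primeFactors.2 ⟨Nat.prime_two, ⟨2 * c0 * Q, by ring⟩, hQ20⟩
  have h5 : c0 ∈ (4 * c0 * Q).primeFactors.erase 2 := Finset.mem_erase.2 ⟨hc2,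
    Nat.mem_primeFactors.2 ⟨hc, ⟨4 * Q, by ring⟩, hQ20⟩⟩
  rw [h0, ← Finset.mul_prod_erase _ _ h2, ← Finset.mul_prod_erase _ _ h5, U_two k hk0,
    ← mul_assoc]
  congr 1
  refine Finset.prod_congr rfl fun l hl => ?_
  have hl5 := Finset.mem_erase.1 hl
  have hl2 := Finset.mem_erase.1 hl5.2
  have hp := Nat.prime_of_mem_primeFactors hl2.2
  have hf : (4 * c0 * Q).factorization l = Q.factorization l := by
    rw [Nat.factorization_mul (by positivity) hQ.ne', Finsupp.add_apply,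
      Nat.factorization_eq_zero_of_not_dvd, zero_add]
    intro h
    rcases hp.dvd_mul.1 h with h | h
    · have h4 : 4 = 2 ^ 2 := by norm_num
      rw [h4] at h
      exact hl2.1 ((Nat.prime_dvd_prime_iff_eq hp Nat.prime_two).1 (hp.dvd_of_dvd_pow h))
    · exact hl5.1 ((Nat.prime_dvd_prime_iff_eq hp hc).1 h)
  rw [hf]
  exact U_fac hs hk l hp hl2.1 _

theorem prod_fac {c0 n1 Q : ℕ} (hc : 0 < c0) (hn1 : 0 < n1) (hQ : 0 < Q)
    (h10 : Nat.Coprime n1 (2 * c0)) :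
    (∏ l ∈ ((4 * c0 * Q).primeFactors.erase 2).erase c0, (if l ∣ n1 then (1 : ℤ) else
        ∑ j ∈ range ((4 * c0 * Q).factorization l + 1), (jacobiSym (-(n1 : ℤ)) l) ^ j)) *
      ∏ l ∈ n1.primeFactors, (if l ∣ 4 * c0 * Q then 1 + hh n1 (4 * c0 * Q) l else 1) =
    ∏ l ∈ ((4 * c0 * Q).primeFactors.erase 2).erase c0, fac n1 (4 * c0 * Q) l := by
  have h4 : ∏ l ∈ n1.primeFactors, (if l ∣ 4 * c0 * Q then 1 + hh n1 (4 * c0 * Q) l else 1) =
      ∏ l ∈ ((4 * c0 * Q).primeFactors.erase 2).erase c0,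
        (if l ∣ n1 then 1 + hh n1 (4 * c0 * Q) l else 1) := by
    rw [← Finset.prod_filter, ← Finset.prod_filter]
    refine Finset.prod_congr ?_ fun _ _ => rfl
    ext l
    rw [Finset.mem_filter, Finset.mem_filter, Finset.mem_erase, Finset.mem_erase,
      Nat.mem_primeFactors, Nat.mem_primeFactors]
    constructor
    · rintro ⟨⟨a1, a2, _⟩, a4⟩
      have hn : ¬ l ∣ 2 * c0 := by
        intro h
        have := Nat.dvd_gcd a2 h
        rw [h10] at this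
        exact a1.one_lt.ne' (Nat.dvd_one.1 this)
      refine ⟨⟨?_, ?_, a1, a4, by positivity⟩, a2⟩
      · rintro rfl; exact hn (Dvd.intro_left _ rfl)
      · rintro rfl; exact hn (Dvd.intro _ rfl)
    · rintro ⟨⟨_, _, a1, a4, _⟩, a2⟩
      exact ⟨⟨a1, a2, hn1.ne'⟩, a4⟩
  rw [h4, ← Finset.prod_mul_distrib]
  refine Finset.prod_congr rfl fun l _ => ?_
  unfold fac
  split_ifs with h
  · rw [one_mul]
  · rw [mul_one]


theorem fact_two {c0 Q : ℕ} (hc : c0.Prime) (hc2 : c0 ≠ 2) (hQ : 0 < Q) :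
    (4 * c0 * Q).factorization 2 = Q.factorization 2 + 2 := by
  have e : 4 * c0 * Q = 2 ^ 2 * (c0 * Q) := by ring
  have h2 : ¬ 2 ∣ c0 := fun h => hc2 ((Nat.prime_dvd_prime_iff_eq Nat.prime_two hc).1 h).symm
  rw [e, Nat.factorization_mul (by norm_num) (Nat.mul_ne_zero hc.ne_zero hQ.ne'), Finsupp.add_apply,
    Nat.Prime.factorization_pow Nat.prime_two, Finsupp.single_eq_same,
    Nat.factorization_mul hc.ne_zero hQ.ne', Finsupp.add_apply,
    Nat.factorization_eq_zero_of_not_dvd h2]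
  ring

theorem fact_c0 {c0 Q : ℕ} (hc : c0.Prime) (hc2 : c0 ≠ 2) (hQ : 0 < Q) :
    (4 * c0 * Q).factorization c0 = Q.factorization c0 + 1 := by
  have e : 4 * c0 * Q = c0 ^ 1 * (2 ^ 2 * Q) := by ring
  have h2 : ¬ c0 ∣ 2 ^ 2 := fun h =>
    hc2 ((Nat.prime_dvd_prime_iff_eq hc Nat.prime_two).1 (hc.dvd_of_dvd_pow h))
  rw [e, Nat.factorization_mul (pow_ne_zero _ hc.ne_zero) (Nat.mul_ne_zero (by norm_num) hQ.ne'),
    Finsupp.add_apply, Nat.Prime.factorization_pow hc, Finsupp.single_eq_same,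
    Nat.factorization_mul (by norm_num) hQ.ne', Finsupp.add_apply,
    Nat.factorization_eq_zero_of_not_dvd h2]
  ring

theorem tw_sum {c0 n1 k Q : ℕ} (hc : c0.Prime) (hc2 : c0 ≠ 2) (hk : n1 + 1 = 4 * k) (hQ : 0 < Q) :
    tw n1 (4 * c0 * Q) = ∑ j ∈ range (Q.factorization 2 + 1), sg2 k ^ j := by
  unfold tw sg2
  rw [fact_two hc hc2 hQ]
  have e1 : Q.factorization 2 + 2 - 1 = Q.factorization 2 + 1 := by omega
  have e2 : (n1 % 8 = 7) ↔ (k % 2 = 0) := by omega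
  rw [e1]
  refine Finset.sum_congr rfl fun j _ => ?_
  simp only [e2]

/-- the number of parameters -/
theorem card_XX {c0 n1 n2 Q : ℕ} {b : ℤ} (hc : c0.Prime) (hc2 : c0 ≠ 2) (hs : Squarefree n1)
    (h3 : n1 % 4 = 3) (h5 : ¬ c0 ∣ n1) (hQ : 0 < Q)
    (hDD : 4 * c0 * (Q : ℤ) = n1 * n2 - b ^ 2) :
    ((XX c0 n1 b Q).card : ℤ) =
      (∑ j ∈ range (Q.factorization c0 + 1), (jacobiSym (-(n1 : ℤ)) c0) ^ j) *
      (tw n1 (4 * c0 * Q) * ∏ l ∈ ((4 * c0 * Q).primeFactors.erase 2).erase c0,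
        fac n1 (4 * c0 * Q) l) := by
  have hn1 : 0 < n1 := by omega
  obtain ⟨k, hk⟩ : ∃ k, n1 + 1 = 4 * k := ⟨(n1 + 1) / 4, by omega⟩
  have h10 : Nat.Coprime n1 (2 * c0) := by
    have h2 : Nat.Coprime n1 2 :=
      ((Nat.Prime.coprime_iff_not_dvd Nat.prime_two).2 (by omega)).symm
    have h5' : Nat.Coprime n1 c0 := ((Nat.Prime.coprime_iff_not_dvd hc).2 h5).symm
    exact Nat.Coprime.mul_right h2 h5'
  have hX := t_XC hc.pos hs h10 hk hQ hDD
  have h55 := U_fac hs hk c0 hc hc2 (Q.factorization c0)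
  rw [if_neg h5] at h55
  rw [U_all hc hc2 hs hk hQ, mul_assoc, prod_fac hc.pos hn1 hQ h10, h55,
    ← tw_sum hc hc2 hk hQ] at hX
  rw [hX]
  ring

/-- the sum of the powers of a sign -/
theorem sum_sign {x : ℤ} (hx : x = 1 ∨ x = -1) (V : ℕ) :
    (x = 1 → ∑ j ∈ range (V + 1), x ^ j = V + 1) ∧
      (x = -1 → ∑ j ∈ range (V + 1), x ^ j = if Odd V then 0 else 1) := by
  constructor
  · rintro rfl
    simp
  · rintro rfl
    rw [neg_one_geom_sum]
    by_cases h : Odd V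
    · rw [if_pos (h.add_one), if_pos h]
    · rw [if_neg (by rw [Nat.even_add_one, not_not]; exact Nat.not_odd_iff_even.1 h), if_neg h]

end Pool.Agent.N970.PC
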